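import Pool.Agent.H90.STE.Stmts

/-!
# STE, module VB: the functional in each window
-/

set_option autoImplicit false

namespace Pool.STE

open Finset Real
open Pool.Agent.H49.Ent Pool.Agent.H32.Dense Pool.STK Pool.KA

/-- VB -/
theorem vb (h1 : ZFStmt) : VBStmt := by
  intro m a R η ε ε₁ θ₁ e N k F ha hG hε he hT hS r hr
  obtain ⟨Q, hQT, hQS, hD, hX⟩ := h1 m N k F r hr e ε hT hS
  have hk : (0 : ℝ) ≤ k := Nat.cast_nonneg k
  have hQT' : Q.Tm (θ₁ * k) := by
    unfold Fam.Tm at hQT ⊢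
    linarith
  have hQS' : Stk Q ε₁ := by
    intro j hj
    exact (hQS j hj).trans (mul_le_mul_of_nonneg_right hε hk)
  have h2 := hG Q hQT' hQS'
  have h3 : a * CH Q.p (Q.X k) Q.W ≤
      a * (CH F.p (F.X ((r + 1) * k)) (bT F k r) + cc m + e) :=
    mul_le_mul_of_nonneg_left hX (by linarith)
  rw [hD] at h2
  unfold vT
  linarith

end Pool.STE
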